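import Mathlib
import Pool.Agent.V1195.SemiBaire

set_option autoImplicit false
open Filter Topology
open scoped InnerProductSpace NNReal
set_option linter.style.haveILetI false

namespace Pool.Agent.Results.MP_eb8260_an.SemigroupsBaire

open Pool.Agent.V1195.SemiBaire

noncomputable section

/-- A contraction `C₀`-semigroup on `H`. -/
structure ContractionSemigroup (H : Type*) [NormedAddCommGroup H] [InnerProductSpace ℂ H] where
  T : ℝ≥0 → (H →L[ℂ] H)
  map_zero : T 0 = 1
  map_add : ∀ s t, T (t + s) = T t * T s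
  cont : ∀ x, Continuous fun t => T t x
  norm_le : ∀ t, ‖T t‖ ≤ 1

variable {H : Type*} [NormedAddCommGroup H] [InnerProductSpace ℂ H]

/-- a contraction semigroup is a path -/
def toPath (S : ContractionSemigroup H) : Path H where
  F := S.T
  zero := S.map_zero
  norm_le := S.norm_le
  cont := fun x _ => continuous_const.inner (S.cont x)

/-- the paths with the semigroup law -/
def IsSemi (F : Path H) : Prop := ∀ s t, F.F (t + s) = F.F t * F.F s

/-- weak continuity and the semigroup law give strong continuity -/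
def ofPath (F : Path H) (hF : IsSemi F) : ContractionSemigroup H where
  T := F.F
  map_zero := F.zero
  map_add := hF
  norm_le := F.norm_le
  cont := by
    intro x
    -- difference estimate
    have hle : ∀ t y, ‖F.F t y‖ ≤ ‖y‖ := fun t y =>
      ((F.F t).le_of_opNorm_le (F.norm_le t) y).trans (by rw [one_mul])
    have key : ∀ t s : ℝ≥0, ‖F.F (t + s) x - F.F t x‖ ^ 2 ≤
        2 * ‖x‖ ^ 2 - 2 * (⟪x, F.F s x⟫_ℂ).re := by
      intro t s
      have h1 : F.F (t + s) x - F.F t x = F.F t (F.F s x - x) := by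
        rw [hF, mul_apply_eq_comp, map_sub]
      have h2 : ‖F.F (t + s) x - F.F t x‖ ≤ ‖F.F s x - x‖ := by rw [h1]; exact hle _ _
      have h3 : ‖F.F s x - x‖ ^ 2 ≤ 2 * ‖x‖ ^ 2 - 2 * (⟪x, F.F s x⟫_ℂ).re := by
        rw [@norm_sub_sq ℂ]
        have h4 : RCLike.re ⟪F.F s x, x⟫_ℂ = (⟪x, F.F s x⟫_ℂ).re := by
          rw [← inner_conj_symm x (F.F s x), Complex.conj_re]; rfl
        rw [h4]
        nlinarith [hle s x, norm_nonneg (F.F s x), norm_nonneg x]
      exact (pow_le_pow_left₀ (norm_nonneg _) h2 2).trans h3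
    have hlim : Tendsto (fun s : ℝ≥0 => 2 * ‖x‖ ^ 2 - 2 * (⟪x, F.F s x⟫_ℂ).re) (𝓝 0) (𝓝 0) := by
      have h1 : Tendsto (fun s : ℝ≥0 => (⟪x, F.F s x⟫_ℂ).re) (𝓝 0) (𝓝 (⟪x, F.F 0 x⟫_ℂ).re) :=
        (Complex.continuous_re.comp (F.cont x x)).tendsto 0
      have h2 : (⟪x, F.F 0 x⟫_ℂ).re = ‖x‖ ^ 2 := by
        rw [F.zero]
        have := inner_self_eq_norm_sq_to_K (𝕜 := ℂ) x
        change (⟪x, x⟫_ℂ).re = _
        rw [this]
        norm_cast
      rw [h2] at h1
      have h3 := (h1.const_mul 2).const_sub (2 * ‖x‖ ^ 2)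
      rw [sub_self] at h3
      exact h3
    rw [continuous_iff_continuousAt]
    intro t₀
    rw [ContinuousAt, Metric.tendsto_nhds]
    intro ε hε
    rw [Metric.tendsto_nhds] at hlim
    have h5 := hlim (ε ^ 2) (by positivity)
    rw [Metric.eventually_nhds_iff] at h5
    obtain ⟨δ, hδ, hδ2⟩ := h5
    rw [Metric.eventually_nhds_iff]
    refine ⟨δ, hδ, fun t ht => ?_⟩
    have hmain : ∀ a b : ℝ≥0, a ≤ b → dist b a < δ → ‖F.F b x - F.F a x‖ < ε := by
      intro a b hab hd
      obtain ⟨s, rfl⟩ := exists_add_of_le hab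
      have hs : dist s 0 < δ := by
        refine lt_of_le_of_lt (le_of_eq ?_) hd
        rw [NNReal.dist_eq, NNReal.dist_eq]; push_cast; congr 1; ring
      have h6 := hδ2 hs
      rw [Real.dist_eq, sub_zero] at h6
      have h7 := lt_of_le_of_lt ((key a s).trans (le_abs_self _)) h6
      exact lt_of_pow_lt_pow_left₀ 2 hε.le h7
    rw [dist_eq_norm]
    rcases le_total t t₀ with h | h
    · rw [norm_sub_rev]
      exact hmain t t₀ h (by rw [dist_comm]; exact ht)
    · exact hmain t₀ t h ht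

lemma continuous_coeff (x : ℕ → H) (hx : DenseRange x) (hx0 : ∀ i, x i ≠ 0) (t : ℝ≥0) (a b : H) :
    @Continuous (Path H) ℂ (pathPM x).toUniformSpace.toTopologicalSpace _
      (fun F : Path H => ⟪b, F.F t a⟫_ℂ) := by
  letI := pathPM x
  rw [Metric.continuous_iff]
  intro F ε hε
  obtain ⟨n, hn⟩ := exists_nat_ge t
  obtain ⟨η, hη, hη2⟩ := control x hx hx0 a b n (ε / 2) (by positivity)
  refine ⟨η, hη, fun G hG => ?_⟩
  have h1 := hη2 G.F F.F G.norm_le F.norm_le hG
  have h2 := (le_supDist G.F F.F G.norm_le F.norm_le n a b t hn).trans h1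
  rw [sub_apply, inner_sub_right] at h2
  rw [dist_eq_norm]
  linarith

section Gdelta

variable [CompleteSpace H]

/-- The semigroup law tested on countably many data. -/
lemma isSemi_of_dense (x : ℕ → H) (hx : DenseRange x) (F : Path H)
    (h : ∀ (m n i j : ℕ), ⟪x j, F.F (TopologicalSpace.denseSeq ℝ≥0 m +
      TopologicalSpace.denseSeq ℝ≥0 n) (x i)⟫_ℂ = ⟪x j, F.F (TopologicalSpace.denseSeq ℝ≥0 m)
        (F.F (TopologicalSpace.denseSeq ℝ≥0 n) (x i))⟫_ℂ) : IsSemi F := by
  have hd := TopologicalSpace.denseRange_denseSeq ℝ≥0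
  -- all s
  have h1 : ∀ (m i j : ℕ) (s : ℝ≥0), ⟪x j, F.F (TopologicalSpace.denseSeq ℝ≥0 m + s) (x i)⟫_ℂ =
      ⟪x j, F.F (TopologicalSpace.denseSeq ℝ≥0 m) (F.F s (x i))⟫_ℂ := by
    intro m i j
    have h2 : Continuous fun s : ℝ≥0 =>
        ⟪x j, F.F (TopologicalSpace.denseSeq ℝ≥0 m + s) (x i)⟫_ℂ :=
      (F.cont (x i) (x j)).comp (continuous_const.add continuous_id)
    have h3 : Continuous fun s : ℝ≥0 =>
        ⟪x j, F.F (TopologicalSpace.denseSeq ℝ≥0 m) (F.F s (x i))⟫_ℂ := by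
      have h := F.cont (x i)
        (ContinuousLinearMap.adjoint (F.F (TopologicalSpace.denseSeq ℝ≥0 m)) (x j))
      refine h.congr (fun s => ?_)
      rw [ContinuousLinearMap.adjoint_inner_left]
    have h4 := hd.equalizer h2 h3 (funext fun n => h m n i j)
    exact fun s => congrFun h4 s
  have h5 : ∀ (i j : ℕ) (s t : ℝ≥0), ⟪x j, F.F (t + s) (x i)⟫_ℂ =
      ⟪x j, F.F t (F.F s (x i))⟫_ℂ := by
    intro i j s
    have h2 : Continuous fun t : ℝ≥0 => ⟪x j, F.F (t + s) (x i)⟫_ℂ :=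
      (F.cont (x i) (x j)).comp (continuous_id.add continuous_const)
    have h3 : Continuous fun t : ℝ≥0 => ⟪x j, F.F t (F.F s (x i))⟫_ℂ := F.cont _ _
    have h4 := hd.equalizer h2 h3 (funext fun m => h1 m i j s)
    exact fun t => congrFun h4 t
  intro s t
  have h6 : ∀ i, F.F (t + s) (x i) = (F.F t * F.F s) (x i) := by
    intro i
    refine ext_inner_left ℂ (fun v => ?_)
    have h2 : Continuous fun v : H => ⟪v, F.F (t + s) (x i)⟫_ℂ := by fun_prop
    have h3 : Continuous fun v : H => ⟪v, (F.F t * F.F s) (x i)⟫_ℂ := by fun_prop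
    exact congrFun (hx.equalizer h2 h3 (funext fun j => h5 i j s t)) v
  have h7 := hx.equalizer (F.F (t + s)).continuous (F.F t * F.F s).continuous (funext h6)
  ext v
  exact congrFun h7 v

lemma isGδ_semi (x : ℕ → H) (hx : DenseRange x) (hx0 : ∀ i, x i ≠ 0) :
    @IsGδ (Path H) (pathPM x).toUniformSpace.toTopologicalSpace {F | IsSemi F} := by
  classical
  letI := pathPM x
  have hsep : TopologicalSpace.SeparableSpace H :=
    ⟨⟨Set.range x, Set.countable_range x, hx⟩⟩
  obtain ⟨w, b, -⟩ := exists_hilbertBasis ℂ H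
  have hw : Countable w := Pool.Agent.V1195.L2Tools.countable_of_orthonormal b.orthonormal
  let g : ℕ → ℕ → ℕ → ℕ → Finset w → Path H → ℂ := fun m n i j S F =>
    ⟪x j, F.F (TopologicalSpace.denseSeq ℝ≥0 m + TopologicalSpace.denseSeq ℝ≥0 n) (x i)⟫_ℂ -
      ∑ k ∈ S, ⟪x j, F.F (TopologicalSpace.denseSeq ℝ≥0 m) (b k)⟫_ℂ *
        ⟪b k, F.F (TopologicalSpace.denseSeq ℝ≥0 n) (x i)⟫_ℂ
  have hg : ∀ m n i j S, Continuous (g m n i j S) := by
    intro m n i j S
    refine (continuous_coeff x hx hx0 _ _ _).sub (continuous_finsetSum _ fun k _ => ?_)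
    exact (continuous_coeff x hx hx0 _ _ _).mul (continuous_coeff x hx hx0 _ _ _)
  have hsum : ∀ m n i j (F : Path H), HasSum (fun k => ⟪x j,
      F.F (TopologicalSpace.denseSeq ℝ≥0 m) (b k)⟫_ℂ *
        ⟪b k, F.F (TopologicalSpace.denseSeq ℝ≥0 n) (x i)⟫_ℂ)
      ⟪x j, F.F (TopologicalSpace.denseSeq ℝ≥0 m)
        (F.F (TopologicalSpace.denseSeq ℝ≥0 n) (x i))⟫_ℂ := by
    intro m n i j F
    have h1 := b.hasSum_inner_mul_inner
      (ContinuousLinearMap.adjoint (F.F (TopologicalSpace.denseSeq ℝ≥0 m)) (x j))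
      (F.F (TopologicalSpace.denseSeq ℝ≥0 n) (x i))
    simp_rw [ContinuousLinearMap.adjoint_inner_left] at h1
    exact h1
  have hset : {F : Path H | IsSemi F} = ⋂ q : ℕ × ℕ × ℕ × ℕ × ℕ × Finset w,
      ⋃ S ∈ {S : Finset w | q.2.2.2.2.2 ⊆ S},
        {F | ‖g q.1 q.2.1 q.2.2.1 q.2.2.2.1 S F‖ < 1 / ((q.2.2.2.2.1 : ℝ) + 1)} := by
    ext F
    simp only [Set.mem_ofPred_eq, Set.mem_iInter, Set.mem_iUnion, exists_prop]
    constructor
    · rintro hF ⟨m, n, i, j, l, S0⟩
      have h1 := hsum m n i j F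
      rw [← mul_apply_eq_comp, ← hF] at h1
      rw [HasSum, SummationFilter.unconditional_filter, Metric.tendsto_nhds] at h1
      obtain ⟨S, hS1, hS2⟩ := ((h1 (1 / ((l : ℝ) + 1)) (by positivity)).and
        (eventually_ge_atTop S0)).exists
      refine ⟨S, hS2, ?_⟩
      rw [dist_comm, dist_eq_norm] at hS1
      exact hS1
    · intro hF
      refine isSemi_of_dense x hx F (fun m n i j => ?_)
      have h1 := hsum m n i j F
      rw [HasSum, SummationFilter.unconditional_filter, Metric.tendsto_nhds] at h1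
      rw [← sub_eq_zero, ← norm_eq_zero]
      by_contra hne
      have hpos := lt_of_le_of_ne (norm_nonneg _) (Ne.symm hne)
      obtain ⟨l, hl⟩ := exists_nat_one_div_lt (half_pos hpos)
      obtain ⟨S1, hS1⟩ := eventually_atTop.1 (h1 _ (half_pos hpos))
      obtain ⟨S, hS, hS2⟩ := hF ⟨m, n, i, j, l, S1⟩
      have h2 := hS1 S hS
      rw [dist_eq_norm] at h2
      have h3 : ‖⟪x j, F.F (TopologicalSpace.denseSeq ℝ≥0 m +
          TopologicalSpace.denseSeq ℝ≥0 n) (x i)⟫_ℂ - ∑ k ∈ S, ⟪x j,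
          F.F (TopologicalSpace.denseSeq ℝ≥0 m) (b k)⟫_ℂ *
          ⟪b k, F.F (TopologicalSpace.denseSeq ℝ≥0 n) (x i)⟫_ℂ‖ < 1 / ((l : ℝ) + 1) := hS2
      have h4 := norm_sub_le_norm_sub_add_norm_sub
        (⟪x j, F.F (TopologicalSpace.denseSeq ℝ≥0 m +
          TopologicalSpace.denseSeq ℝ≥0 n) (x i)⟫_ℂ)
        (∑ k ∈ S, ⟪x j, F.F (TopologicalSpace.denseSeq ℝ≥0 m) (b k)⟫_ℂ *
          ⟪b k, F.F (TopologicalSpace.denseSeq ℝ≥0 n) (x i)⟫_ℂ)
        (⟪x j, F.F (TopologicalSpace.denseSeq ℝ≥0 m)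
          (F.F (TopologicalSpace.denseSeq ℝ≥0 n) (x i))⟫_ℂ)
      linarith
  rw [hset]
  refine IsGδ.iInter_of_isOpen (fun q => isOpen_biUnion fun S _ => ?_)
  exact isOpen_lt (hg _ _ _ _ _).norm continuous_const

end Gdelta

/-- The Baire property in terms of the metric `d`, for an arbitrary dense sequence of nonzero
vectors: a countable intersection of `d`-open `d`-dense sets of contraction `C₀`-semigroups is
`d`-dense. -/
theorem result (H : Type*) [NormedAddCommGroup H] [InnerProductSpace ℂ H] [CompleteSpace H]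
    (x : ℕ → H) (hx : DenseRange x) (hx0 : ∀ i, x i ≠ 0)
    (U : ℕ → Set (ContractionSemigroup H))
    (hopen : ∀ k, ∀ S ∈ U k, ∃ ε > 0, ∀ R, semiDist x S.T R.T < ε → R ∈ U k)
    (hdense : ∀ k, ∀ S : ContractionSemigroup H, ∀ ε > 0, ∃ R ∈ U k, semiDist x S.T R.T < ε) :
    ∀ (S : ContractionSemigroup H), ∀ ε > 0, ∃ R, (∀ k, R ∈ U k) ∧ semiDist x S.T R.T < ε := by
  letI := pathPM x
  have hcomp : CompleteSpace (Path H) := path_complete x hx hx0
  have hG := isGδ_semi x hx hx0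
  let C : Set (Path H) := {F | IsSemi F}
  have hXc : IsComplete (closure C) := isClosed_closure.isComplete
  have hXcomp : CompleteSpace (closure C) := completeSpace_coe_iff_isComplete.2 hXc
  -- C as a subset of its closure
  let C' : Set (closure C) := {z | z.1 ∈ C}
  have hC'G : IsGδ C' := hG.preimage continuous_subtype_val
  have hC'd : Dense C' := by
    rw [Metric.dense_iff]
    intro z r hr
    obtain ⟨c, hc, hcz⟩ := Metric.mem_closure_iff.1 z.2 r hr
    exact ⟨⟨c, subset_closure hc⟩, by rw [Metric.mem_ball, dist_comm]; exact hcz, hc⟩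
  -- open sets extending the U k
  let O : ℕ → Set (closure C) := fun k =>
    ⋃ q ∈ {q : ContractionSemigroup H × ℝ | ∀ R, semiDist x q.1.T R.T < q.2 → R ∈ U k},
      {z : closure C | semiDist x q.1.T z.1.F < q.2}
  have hOopen : ∀ k, IsOpen (O k) := by
    intro k
    refine isOpen_biUnion fun q _ => ?_
    have : {z : closure C | semiDist x q.1.T z.1.F < q.2} =
        (fun z : closure C => z.1) ⁻¹' (Metric.ball (toPath q.1) q.2) := by
      ext z
      rw [Set.mem_preimage, Metric.mem_ball, dist_comm]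
      rfl
    rw [this]
    exact Metric.isOpen_ball.preimage continuous_subtype_val
  have hOdense : ∀ k, Dense (O k) := by
    intro k
    rw [Metric.dense_iff]
    intro z r hr
    obtain ⟨c, hc, hcz⟩ := Metric.mem_closure_iff.1 z.2 (r / 2) (by positivity)
    obtain ⟨R, hR, hR2⟩ := hdense k (ofPath c hc) (r / 2) (by positivity)
    obtain ⟨ε, hε, hε2⟩ := hopen k R hR
    have hRC : toPath R ∈ C := R.map_add
    refine ⟨⟨toPath R, subset_closure hRC⟩, ?_, ?_⟩
    · rw [Metric.mem_ball, dist_comm]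
      have h1 : dist c (toPath R) < r / 2 := hR2
      have h2 : dist z.1 (toPath R) ≤ dist z.1 c + dist c (toPath R) := dist_triangle _ _ _
      exact lt_of_le_of_lt h2 (by linarith)
    · refine Set.mem_biUnion (x := (R, ε)) hε2 ?_
      change semiDist x R.T R.T < ε
      have : semiDist x R.T R.T = dist (toPath R) (toPath R) := rfl
      rw [this, dist_self]
      exact hε
  intro S ε hε
  have hSC : toPath S ∈ C := S.map_add
  have hint : Dense ((⋂ k, O k) ∩ C') :=
    Dense.inter_of_Gδ (IsGδ.iInter_of_isOpen hOopen) hC'G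
      (dense_iInter_of_isOpen_nat hOopen hOdense) hC'd
  rw [Metric.dense_iff] at hint
  obtain ⟨z, hz1, hz2, hz3⟩ := hint ⟨toPath S, subset_closure hSC⟩ ε hε
  refine ⟨ofPath z.1 hz3, fun k => ?_, ?_⟩
  · have h1 := Set.mem_iInter.1 hz2 k
    simp only [O, Set.mem_iUnion, exists_prop] at h1
    obtain ⟨q, hq, hqz⟩ := h1
    exact hq _ hqz
  · rw [Metric.mem_ball, dist_comm] at hz1
    exact hz1

end

end Pool.Agent.Results.MP_eb8260_an.SemigroupsBaire
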